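import Pool.Agent.TH276.Eb.Act

/-!
# The reduced Fourier–Stieltjes algebra of an exact group is an Eberlein algebra

For a locally compact group `G` that acts (topologically) amenably on some nonempty compact
Hausdorff space (amenable at infinity; for second countable groups this is the same as exactness),
every continuous function on `G` which is a pointwise limit of functions in `A(G) ∩ P(G)` is a limit,
uniformly on compact sets, of such functions, i.e. lies in `B_r(G)`.
-/

set_option autoImplicit false

open MeasureTheory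

namespace Pool.Agent.Results.MP_6b7756_an.ExactGroups

universe u

/-- `x ↦ ⟨λ(x) ξ, ξ⟩` up to complex conjugation: the diagonal coefficient
`∫ ξ(y) conj (ξ(x⁻¹ y)) dy` of the left regular representation. -/
noncomputable def coefficient {G : Type u} [Group G] [TopologicalSpace G] [IsTopologicalGroup G]
    [LocallyCompactSpace G] [MeasurableSpace G] [BorelSpace G] (ξ : G → ℂ) (x : G) : ℂ :=
  ∫ y, ξ y * (starRingEnd ℂ) (ξ (x⁻¹ * y)) ∂(Measure.haar : Measure G)

/-- The set `A(G) ∩ P(G)` of the diagonal coefficients of the left regular representation with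
`ξ ∈ L²(G)`. -/
def regularCoefficients (G : Type u) [Group G] [TopologicalSpace G] [IsTopologicalGroup G]
    [LocallyCompactSpace G] [MeasurableSpace G] [BorelSpace G] : Set (G → ℂ) :=
  {ψ | ∃ ξ : G → ℂ, MemLp ξ 2 (Measure.haar : Measure G) ∧ ∀ x : G, ψ x = coefficient ξ x}

/-- A positive definite function belongs to `B_r(G)` iff it is a limit, uniformly on compact sets,
of functions in `A(G) ∩ P(G)`. -/
def InReduced {G : Type u} [Group G] [TopologicalSpace G] [IsTopologicalGroup G]
    [LocallyCompactSpace G] [MeasurableSpace G] [BorelSpace G] (φ : G → ℂ) : Prop :=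
  ∀ K : Set G, IsCompact K → ∀ ε : ℝ, 0 < ε →
    ∃ ψ ∈ regularCoefficients G, ∀ x ∈ K, ‖φ x - ψ x‖ < ε

/-- `B_r(G)` is an Eberlein algebra: every continuous function in the closure of `A(G) ∩ P(G)` for
the topology of pointwise convergence (the topology of `G → ℂ`) belongs to `B_r(G)`. -/
def IsEberlein (G : Type u) [Group G] [TopologicalSpace G] [IsTopologicalGroup G]
    [LocallyCompactSpace G] [MeasurableSpace G] [BorelSpace G] : Prop :=
  ∀ φ : G → ℂ, Continuous φ → φ ∈ closure (regularCoefficients G) → InReduced φ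

/-- The continuous action of `G` on the compact space `X` is topologically amenable
(Anantharaman-Delaroche): for every compact `C ⊆ G` and `ε > 0` there is a nonnegative
`g ∈ C_c(X × G)` with `∫ g(x, t) dt = 1` for all `x ∈ X` and
`∫ |g(s x, s t) - g(x, t)| dt ≤ ε` for all `s ∈ C`, `x ∈ X`. -/
def AmenableAction (G X : Type u) [Group G] [TopologicalSpace G] [IsTopologicalGroup G]
    [LocallyCompactSpace G] [MeasurableSpace G] [BorelSpace G] [TopologicalSpace X]
    [MulAction G X] : Prop :=
  ∀ C : Set G, IsCompact C → ∀ ε : ℝ, 0 < ε → ∃ g : X × G → ℝ,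
    Continuous g ∧ HasCompactSupport g ∧ (∀ z, 0 ≤ g z) ∧
      (∀ x : X, ∫ t, g (x, t) ∂(Measure.haar : Measure G) = 1) ∧
      ∀ s ∈ C, ∀ x : X, ∫ t, |g (s • x, s * t) - g (x, t)| ∂(Measure.haar : Measure G) ≤ ε

/-- `G` is amenable at infinity: it acts amenably on some nonempty compact Hausdorff space. -/
def AmenableAtInfinity (G : Type u) [Group G] [TopologicalSpace G] [IsTopologicalGroup G]
    [LocallyCompactSpace G] [MeasurableSpace G] [BorelSpace G] : Prop :=
  ∃ (X : Type u) (_ : TopologicalSpace X) (_ : MulAction G X), CompactSpace X ∧ T2Space X ∧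
    Nonempty X ∧ ContinuousSMul G X ∧ AmenableAction G X

/-- **Eberlein property for exact groups.** If the locally compact group `G` is amenable at
infinity, then `B_r(G)` is an Eberlein algebra on `G`. -/
theorem result (G : Type u) [Group G] [TopologicalSpace G] [IsTopologicalGroup G]
    [LocallyCompactSpace G] [T2Space G] [MeasurableSpace G] [BorelSpace G]
    (hG : AmenableAtInfinity G) : IsEberlein G := by
  obtain ⟨X, _, _, _, _, ⟨x₀⟩, _, hA⟩ := hG
  intro φ hφc hφ K hK ε hε
  set M := |(φ 1).re| + 1 with hM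
  have hM0 : 0 < M := by positivity
  have hδ : 0 < ε / (2 * M) := by positivity
  obtain ⟨g, hc, hs, hg0, hg1, hg2⟩ := hA K⁻¹ hK.inv ((ε / (2 * M)) ^ 2) (by positivity)
  obtain ⟨ξ, hξ, hξ2⟩ := Pool.Agent.TH276.Eb.main_step hc hs x₀ hg0 hg1 hφc
    (show φ ∈ closure (Pool.Agent.TH276.Eb.coefSet G) from hφ) K (ε / (2 * M)) hδ.le
    (fun x hx y => hg2 x⁻¹ (Set.inv_mem_inv.2 hx) y) (ε / 2) (by positivity)
  refine ⟨coefficient ξ, ⟨ξ, hξ, fun x => rfl⟩, fun x hx => ?_⟩
  refine (hξ2 x hx).trans_le ?_
  have h1 : (φ 1).re ≤ M := by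
    have := le_abs_self (φ 1).re
    linarith
  calc ε / (2 * M) * (φ 1).re + ε / 2 ≤ ε / (2 * M) * M + ε / 2 := by gcongr
    _ = ε := by field_simp; ring

end Pool.Agent.Results.MP_6b7756_an.ExactGroups
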