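import Pool.Agent.TH276.Eb.Lat5

/-!
# The reduced Fourier–Stieltjes algebra of a locally compact group containing a lattice

For a locally compact group `G` with a discrete subgroup `Γ` of finite covolume (for instance a
discrete cocompact subgroup), every continuous function on `G` which is a pointwise limit of functions
in `A(G) ∩ P(G)` is a limit, uniformly on compact sets, of such functions, i.e. lies in `B_r(G)`.
No exactness is assumed: `Γ` may be any discrete group, e.g. `G = K ⋊ Γ` with `K` compact.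
-/

set_option autoImplicit false

open MeasureTheory

namespace Pool.Agent.Results.MP_6b7756_an.Lattices

universe u

/-- `x ↦ ⟨λ(x) ξ, ξ⟩` up to complex conjugation: the diagonal coefficient
`∫ ξ(y) conj (ξ(x⁻¹ y)) dy` of the left regular representation. -/
noncomputable def coefficient {G : Type u} [Group G] [TopologicalSpace G] [IsTopologicalGroup G]
    [LocallyCompactSpace G] [MeasurableSpace G] [BorelSpace G] (ξ : G → ℂ) (x : G) : ℂ :=
  ∫ y, ξ y * (starRingEnd ℂ) (ξ (x⁻¹ * y)) ∂(Measure.haar : Measure G)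

/-- The set `A(G) ∩ P(G)` of the diagonal coefficients of the left regular representation with
`ξ ∈ L²(G)`. -/
def regularCoefficients (G : Type u) [Group G] [TopologicalSpace G] [IsTopologicalGroup G]
    [LocallyCompactSpace G] [MeasurableSpace G] [BorelSpace G] : Set (G → ℂ) :=
  {ψ | ∃ ξ : G → ℂ, MemLp ξ 2 (Measure.haar : Measure G) ∧ ∀ x : G, ψ x = coefficient ξ x}

/-- A positive definite function belongs to `B_r(G)` iff it is a limit, uniformly on compact sets,
of functions in `A(G) ∩ P(G)`. -/
def InReduced {G : Type u} [Group G] [TopologicalSpace G] [IsTopologicalGroup G]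
    [LocallyCompactSpace G] [MeasurableSpace G] [BorelSpace G] (φ : G → ℂ) : Prop :=
  ∀ K : Set G, IsCompact K → ∀ ε : ℝ, 0 < ε →
    ∃ ψ ∈ regularCoefficients G, ∀ x ∈ K, ‖φ x - ψ x‖ < ε

/-- `B_r(G)` is an Eberlein algebra: every continuous function in the closure of `A(G) ∩ P(G)` for
the topology of pointwise convergence (the topology of `G → ℂ`) belongs to `B_r(G)`. -/
def IsEberlein (G : Type u) [Group G] [TopologicalSpace G] [IsTopologicalGroup G]
    [LocallyCompactSpace G] [MeasurableSpace G] [BorelSpace G] : Prop :=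
  ∀ φ : G → ℂ, Continuous φ → φ ∈ closure (regularCoefficients G) → InReduced φ

/-- The subgroup `Γ` has finite covolume in `G`: the integrals (for the left Haar measure) of the
nonnegative `f ∈ C_c(G)` with `∑_{γ ∈ Γ} f(y γ) ≤ 1` for all `y ∈ G` are bounded. (For discrete `Γ`
this says that `G/Γ` carries a finite nonzero `G`-invariant Radon measure.) -/
def HasFiniteCovolume {G : Type u} [Group G] [TopologicalSpace G] [IsTopologicalGroup G]
    [LocallyCompactSpace G] [MeasurableSpace G] [BorelSpace G] (Γ : Subgroup G) : Prop :=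
  ∃ M : ℝ, ∀ f : G → ℝ, Continuous f → HasCompactSupport f → (∀ y, 0 ≤ f y) →
    (∀ y, ∑' γ : Γ, f (y * γ) ≤ 1) → ∫ y, f y ∂(Measure.haar : Measure G) ≤ M

/-- The subgroup `Γ` is cocompact in `G`: `G = K Γ` for some compact set `K`. -/
def IsCocompact {G : Type u} [Group G] [TopologicalSpace G] (Γ : Subgroup G) : Prop :=
  ∃ K : Set G, IsCompact K ∧ ∀ y : G, ∃ x ∈ K, ∃ γ ∈ Γ, y = x * γ

/-- **Eberlein property for groups containing a lattice.** If the locally compact group `G` has a
discrete subgroup of finite covolume, or a discrete cocompact subgroup, then `B_r(G)` is an Eberlein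
algebra on `G`. -/
theorem result (G : Type u) [Group G] [TopologicalSpace G] [IsTopologicalGroup G]
    [LocallyCompactSpace G] [T2Space G] [MeasurableSpace G] [BorelSpace G]
    (Γ : Subgroup G) [DiscreteTopology Γ] (hΓ : HasFiniteCovolume Γ ∨ IsCocompact Γ) :
    IsEberlein G := by
  have hfin : Pool.Agent.TH276.Eb.FinCov Γ := by
    rcases hΓ with ⟨M, hM⟩ | ⟨K, hK, hKΓ⟩
    · exact ⟨M, fun f hf => hM f hf.1 hf.2.1 hf.2.2.1 hf.2.2.2⟩
    · apply Pool.Agent.TH276.Eb.finCov_of_cocompact Γ
      refine ⟨K, hK, fun y => ?_⟩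
      obtain ⟨x, hx, γ, hγ, rfl⟩ := hKΓ y
      refine ⟨⟨γ⁻¹, Γ.inv_mem hγ⟩, ?_⟩
      simpa using hx
  intro φ hφc hφ K hK ε hε
  obtain ⟨ξ, hξ, hξ2⟩ := Pool.Agent.TH276.Eb.main_lattice Γ hfin hφc
    (show φ ∈ closure (Pool.Agent.TH276.Eb.coefSet G) from hφ) K hK ε hε
  exact ⟨coefficient ξ, ⟨ξ, hξ, fun x => rfl⟩, fun x hx => hξ2 x hx⟩

end Pool.Agent.Results.MP_6b7756_an.Lattices
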