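import Pool.Agent.TH276.Eb.Gap2

/-!
# The Eberlein property for groups with small compact open subgroups with spectral gap

Let `G` be a locally compact group such that every neighbourhood of `1` contains a compact open
subgroup `K` carrying a finitely supported probability measure with spectral gap on `L²₀(K)` (for
instance a group with an open subgroup isomorphic to a congruence subgroup of `SL_n(ℤ_p)`, `n ≥ 3`).
Then every continuous function on `G` which is a pointwise limit of functions in `A(G) ∩ P(G)` is a
limit, uniformly on compact sets, of such functions, i.e. lies in `B_r(G)`. No exactness of `G` and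
no lattice is assumed.
-/

set_option autoImplicit false

open MeasureTheory Topology

namespace Pool.Agent.Results.MP_6b7756_an.SpectralGap

universe u

/-- `x ↦ ⟨λ(x) ξ, ξ⟩` up to complex conjugation: the diagonal coefficient
`∫ ξ(y) conj (ξ(x⁻¹ y)) dy` of the left regular representation. -/
noncomputable def coefficient {G : Type u} [Group G] [TopologicalSpace G] [IsTopologicalGroup G]
    [LocallyCompactSpace G] [MeasurableSpace G] [BorelSpace G] (ξ : G → ℂ) (x : G) : ℂ :=
  ∫ y, ξ y * (starRingEnd ℂ) (ξ (x⁻¹ * y)) ∂(Measure.haar : Measure G)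

/-- The set `A(G) ∩ P(G)` of the diagonal coefficients of the left regular representation with
`ξ ∈ L²(G)`. -/
def regularCoefficients (G : Type u) [Group G] [TopologicalSpace G] [IsTopologicalGroup G]
    [LocallyCompactSpace G] [MeasurableSpace G] [BorelSpace G] : Set (G → ℂ) :=
  {ψ | ∃ ξ : G → ℂ, MemLp ξ 2 (Measure.haar : Measure G) ∧ ∀ x : G, ψ x = coefficient ξ x}

/-- A positive definite function belongs to `B_r(G)` iff it is a limit, uniformly on compact sets,
of functions in `A(G) ∩ P(G)`. -/
def InReduced {G : Type u} [Group G] [TopologicalSpace G] [IsTopologicalGroup G]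
    [LocallyCompactSpace G] [MeasurableSpace G] [BorelSpace G] (φ : G → ℂ) : Prop :=
  ∀ K : Set G, IsCompact K → ∀ ε : ℝ, 0 < ε →
    ∃ ψ ∈ regularCoefficients G, ∀ x ∈ K, ‖φ x - ψ x‖ < ε

/-- `B_r(G)` is an Eberlein algebra: every continuous function in the closure of `A(G) ∩ P(G)` for
the topology of pointwise convergence (the topology of `G → ℂ`) belongs to `B_r(G)`. -/
def IsEberlein (G : Type u) [Group G] [TopologicalSpace G] [IsTopologicalGroup G]
    [LocallyCompactSpace G] [MeasurableSpace G] [BorelSpace G] : Prop :=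
  ∀ φ : G → ℂ, Continuous φ → φ ∈ closure (regularCoefficients G) → InReduced φ

/-- The subgroup `K` has a spectral gap: there is a probability measure `∑ c_j δ_{κ_j}` on `K` with
finite support and `θ < 1` such that for every continuous `f` with `∫_K f = 0`,
`∫_K |∑ c_j f(κ_j⁻¹ y)|² dy ≤ θ ∫_K |f(y)|² dy` (Haar measure of `G` restricted to `K`). -/
def HasSpectralGap {G : Type u} [Group G] [TopologicalSpace G] [IsTopologicalGroup G]
    [LocallyCompactSpace G] [MeasurableSpace G] [BorelSpace G] (K : Subgroup G) : Prop :=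
  ∃ (n : ℕ) (κ : Fin n → G) (c : Fin n → ℝ) (θ : ℝ), (∀ j, κ j ∈ K) ∧ (∀ j, 0 ≤ c j) ∧
    ∑ j, c j = 1 ∧ 0 ≤ θ ∧ θ < 1 ∧ ∀ f : G → ℂ, Continuous f →
      ∫ y in (K : Set G), f y ∂(Measure.haar : Measure G) = 0 →
      ∫ y in (K : Set G), ‖∑ j, (c j : ℂ) * f ((κ j)⁻¹ * y)‖ ^ 2 ∂(Measure.haar : Measure G) ≤
        θ * ∫ y in (K : Set G), ‖f y‖ ^ 2 ∂(Measure.haar : Measure G)

/-- **Eberlein property and spectral gap.** If every neighbourhood of `1` in the locally compact
group `G` contains a compact open subgroup with a spectral gap, then `B_r(G)` is an Eberlein algebra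
on `G`. -/
theorem result (G : Type u) [Group G] [TopologicalSpace G] [IsTopologicalGroup G]
    [LocallyCompactSpace G] [T2Space G] [MeasurableSpace G] [BorelSpace G]
    (hG : ∀ U ∈ 𝓝 (1 : G), ∃ K : Subgroup G, (K : Set G) ⊆ U ∧ IsCompact (K : Set G) ∧
      IsOpen (K : Set G) ∧ HasSpectralGap K) :
    IsEberlein G := by
  intro φ hφc hφ K hK ε hε
  obtain ⟨ξ, hξ, hξ2⟩ := Pool.Agent.TH276.Eb.main_gap hG hφc
    (show φ ∈ closure (Pool.Agent.TH276.Eb.coefSet G) from hφ) K hK ε hε
  exact ⟨coefficient ξ, ⟨ξ, hξ, fun x => rfl⟩, fun x hx => hξ2 x hx⟩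

end Pool.Agent.Results.MP_6b7756_an.SpectralGap
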